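import Pool.Agent.VMX.StmtsF
import Pool.Agent.Helper13_NBT.Main

/-!
# VMX squad (MP_e54c4c_gt): from the row FNL to the frozen statement S14139
-/

set_option autoImplicit false

open Matrix Filter Topology

namespace Pool.Agent.VMX.H48

open Pool.Agent.PFS Pool.Agent.PFJ Pool.Agent.NBT

/-- the final theorem for a non hyperbolic group, in the language of the squads -/
theorem concl_of_fnl (hF : FnlStmt) (n : ℕ) (C : Set (V n)) (Γ : Subgroup (GL (Fin n) ℝ))
    (h : CC C Γ)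
    (hyp : ¬ ∃ S : Finset ↥Γ, Subgroup.closure (S : Set ↥Γ) = ⊤ ∧ ∃ δ : ℕ,
        ∀ x y z w : ↥Γ,
          (SimpleGraph.fromRel fun a b : ↥Γ => a⁻¹ * b ∈ S).dist x y
            + (SimpleGraph.fromRel fun a b : ↥Γ => a⁻¹ * b ∈ S).dist z w
          ≤ max ((SimpleGraph.fromRel fun a b : ↥Γ => a⁻¹ * b ∈ S).dist x z
                  + (SimpleGraph.fromRel fun a b : ↥Γ => a⁻¹ * b ∈ S).dist y w)
                ((SimpleGraph.fromRel fun a b : ↥Γ => a⁻¹ * b ∈ S).dist x w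
                  + (SimpleGraph.fromRel fun a b : ↥Γ => a⁻¹ * b ∈ S).dist y z)
            + 2 * δ) :
    ∃ k : ℕ, 2 ≤ k ∧ ∃ w : Fin (k + 1) → V n, IsPES C Γ w ∧ Concl C Γ k w := by
  have htri : ∃ w : Fin 3 → (Fin n → ℝ), IsPES C Γ w := by
    by_contra hcon
    exact hyp (Pool.Agent.PFS.H87.hypFinal n C Γ h hcon)
  obtain ⟨k, hk, hex, hmax⟩ := Pool.Agent.PFS.H73.mxk Pool.Agent.PFS.H60.lin n C Γ h htri
  exact hF n C Γ h (k + 1) (by omega) hmax hex

end Pool.Agent.VMX.H48
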