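import Pool.Agent.Helper43_VMX.SUA

/-! Row MAP of the squad VMX (second copy): raising all vertices except `j`. -/

set_option autoImplicit false

open Matrix Filter Topology

namespace Pool.Agent.VMX.H48

open Pool.Agent.PFS Pool.Agent.PFJ Pool.Agent.NBT Pool.Agent.VMX

variable {n : ℕ} {C : Set (V n)} {Γ : Subgroup (GL (Fin n) ℝ)}

/-- uniform comparison of `x = c p + y` with its image -/
theorem comp_unifS (h : CC C Γ) {g : GL (Fin n) ℝ} (hg : g ∈ Γ) {s : ℝ} (hs : 0 < s) {m : ℕ}
    (lam : Fin m → ℝ) (q : Fin m → V n) (hl : ∀ i, 0 < lam i)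
    (hq : ∀ i, Eg C Γ g s (lam i) (q i)) {y : V n} (hy : y ∈ C) (S : Finset (Fin m)) :
    ∃ M : ℝ, ∀ c : ℝ, 0 ≤ c →
      M • (c • ∑ i ∈ S, q i + y) - act g (c • ∑ i ∈ S, q i + y) ∈ closure C ∧
      M • act g (c • ∑ i ∈ S, q i + y) - (c • ∑ i ∈ S, q i + y) ∈ closure C := by
  have hqc : ∀ i, q i ∈ closure C := fun i => h.hul.lamCl _ (hq i).1
  have hqa : ∀ i, act g (q i) = (lam i / s) • q i := by
    intro i
    have h2 := (hq i).2
    have h3 : act g (q i) = s⁻¹ • (s • act g (q i)) := by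
      rw [smul_smul, inv_mul_cancel₀ hs.ne', one_smul]
    rw [h3, h2, smul_smul, div_eq_inv_mul]
  obtain ⟨M3, hM3, h3⟩ := h.absorb hy (act g y)
  obtain ⟨M4, hM4, h4⟩ := h.absorb ((h.act_mem_iff hg).2 hy) y
  have hyc : y ∈ closure C := subset_closure hy
  have hgyc : act g y ∈ closure C := h.act_cl hg hyc
  set M1 : ℝ := ∑ i, lam i / s with hM1
  set M2 : ℝ := ∑ i, s / lam i with hM2
  have hM1i : ∀ i, lam i / s ≤ M1 := fun i =>
    Finset.single_le_sum (f := fun i => lam i / s) (fun j _ => (div_pos (hl j) hs).le)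
      (Finset.mem_univ i)
  have hM2i : ∀ i, s / lam i ≤ M2 := fun i =>
    Finset.single_le_sum (f := fun i => s / lam i) (fun j _ => (div_pos hs (hl j)).le)
      (Finset.mem_univ i)
  have hM10 : 0 ≤ M1 := Finset.sum_nonneg fun j _ => (div_pos (hl j) hs).le
  have hM20 : 0 ≤ M2 := Finset.sum_nonneg fun j _ => (div_pos hs (hl j)).le
  refine ⟨M1 + M2 + M3 + M4, fun c hc => ⟨?_, ?_⟩⟩
  · have e : (M1 + M2 + M3 + M4) • (c • ∑ i ∈ S, q i + y) - act g (c • ∑ i ∈ S, q i + y) =
        c • (∑ i ∈ S, (M1 + M2 + M3 + M4 - lam i / s) • q i) +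
          ((M1 + M2 + M3 + M4) • y - act g y) := by
      rw [CC.act_add, CC.act_smul, CC.act_sum, Finset.sum_congr rfl (fun i _ => hqa i)]
      have e2 : ∑ i ∈ S, (M1 + M2 + M3 + M4 - lam i / s) • q i =
          (M1 + M2 + M3 + M4) • ∑ i ∈ S, q i - ∑ i ∈ S, (lam i / s) • q i := by
        rw [Finset.smul_sum, ← Finset.sum_sub_distrib]
        exact Finset.sum_congr rfl (fun i _ => sub_smul _ _ _)
      rw [e2, smul_sub, smul_add, smul_comm c]
      abel
    rw [e]
    refine h.cl_add (h.cl_smul (h.cl_sum fun i _ => h.cl_smul (hqc i) ?_) hc) ?_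
    · have := hM1i i
      linarith
    · exact H43.mono_c h.toPCone hyc (by linarith) (subset_closure h3)
  · have e : (M1 + M2 + M3 + M4) • act g (c • ∑ i ∈ S, q i + y) - (c • ∑ i ∈ S, q i + y) =
        c • (∑ i ∈ S, ((M1 + M2 + M3 + M4) * (lam i / s) - 1) • q i) +
          ((M1 + M2 + M3 + M4) • act g y - y) := by
      rw [CC.act_add, CC.act_smul, CC.act_sum, Finset.sum_congr rfl (fun i _ => hqa i)]
      have e2 : ∑ i ∈ S, ((M1 + M2 + M3 + M4) * (lam i / s) - 1) • q i =
          (M1 + M2 + M3 + M4) • ∑ i ∈ S, (lam i / s) • q i - ∑ i ∈ S, q i := by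
        rw [Finset.smul_sum, ← Finset.sum_sub_distrib]
        refine Finset.sum_congr rfl (fun i _ => ?_)
        rw [sub_smul, one_smul, smul_smul]
      rw [e2, smul_sub, smul_add, smul_comm c]
      abel
    rw [e]
    refine h.cl_add (h.cl_smul (h.cl_sum fun i _ => h.cl_smul (hqc i) ?_) hc) ?_
    · have h5 : s / lam i ≤ M1 + M2 + M3 + M4 := by
        have := hM2i i
        linarith
      have h6 : (s / lam i) * (lam i / s) = 1 := by
        have := (hl i).ne'
        field_simp
      have h7 := mul_le_mul_of_nonneg_right h5 (div_pos (hl i) hs).le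
      linarith
    · exact H43.mono_c h.toPCone hgyc (by linarith) (subset_closure h4)

theorem map (hSbg : SbgStmt) (hLop : LopStmt) : MapStmt := by
  classical
  intro n C Γ h g hg s r lam q hs hq hP j
  have hl : ∀ i, 0 < lam i := fun i => (hq i).1
  have hE : ∀ i, Eg C Γ g s (lam i) (q i) := fun i => (hq i).2
  have hqL : ∀ i, q i ∈ LamC C Γ := fun i => (hE i).1
  have hqc : ∀ i, q i ∈ closure C := fun i => h.hul.lamCl _ (hqL i)
  set S : Finset (Fin r) := Finset.univ.erase j with hS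
  set p : V n := ∑ i ∈ S, q i with hpdef
  set y : V n := ∑ i, q i with hydef
  have hyp : y = p + q j := by
    rw [hydef, hpdef, hS, Finset.sum_erase_add _ _ (Finset.mem_univ j)]
  have hpc : p ∈ closure C := h.cl_sum fun i _ => hqc i
  have hyC : y ∈ C := hP.1.sum_mem
  have hpC : p ∉ C := by
    have h1 := hP.1.bd (fun i => if i = j then 0 else 1)
      (fun i => by split_ifs <;> norm_num) ⟨j, by simp⟩
    have e : ∑ i, (if i = j then (0 : ℝ) else 1) • q i = p := by
      rw [hpdef, hS, ← Finset.add_sum_erase Finset.univ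
        (fun i => (if i = j then (0 : ℝ) else 1) • q i) (Finset.mem_univ j)]
      rw [if_pos rfl, zero_smul, zero_add]
      refine Finset.sum_congr rfl (fun i hi => ?_)
      rw [if_neg (Finset.ne_of_mem_erase hi), one_smul]
    rwa [e] at h1
  have hyc : y ∈ closure C := subset_closure hyC
  have hyH : y ∈ Hull C Γ := by
    have h1 := H43.sum_hull h q (fun i => h.hul.lamHull _ (hqL i)) (h.hul.lamHull _ (hqL j))
      one_pos S
    rwa [one_smul, ← hpdef, ← hyp] at h1
  obtain ⟨M, hM⟩ := comp_unifS h hg hs lam q hl hE hyC S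
  set x : ℕ → V n := fun j => ((j : ℝ) + 1) • p + y with hx
  have hxC : ∀ j, x j ∈ C := fun j => h.cl_add' (h.cl_smul hpc (by positivity)) hyC
  have hxH : ∀ j, x j ∈ Hull C Γ := fun j =>
    H43.sum_hull h q (fun i => h.hul.lamHull _ (hqL i)) hyH (by positivity) S
  obtain ⟨φ, γ, t, xi, hφ, hγ, hγg, ht, hxi, hlim⟩ := hSbg n C Γ h g hg x M hxC hxH
    (fun j => (hM ((j : ℝ) + 1) (by positivity)).1)
    (fun j => (hM ((j : ℝ) + 1) (by positivity)).2)
  obtain ⟨ψ, T, hψ, hT⟩ := hLop n C Γ h ⊤ (fun j => x (φ j)) γ t xi hγ ht hlim (by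
    intro u _
    obtain ⟨M', hM', ha, hb⟩ := absorb_two h.toPCone hyC u
    refine ⟨M', fun j => ⟨?_, ?_⟩⟩
    · have e : M' • x (φ j) - u = M' • (((φ j : ℝ) + 1) • p) + (M' • y - u) := by
        rw [hx]
        dsimp only
        rw [smul_add]
        abel
      rw [e]
      exact h.cl_add (h.cl_smul (h.cl_smul hpc (by positivity)) hM'.le) (subset_closure ha)
    · have e : M' • x (φ j) + u = M' • (((φ j : ℝ) + 1) • p) + (M' • y + u) := by
        rw [hx]
        dsimp only
        rw [smul_add]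
        abel
      rw [e]
      exact h.cl_add (h.cl_smul (h.cl_smul hpc (by positivity)) hM'.le) (subset_closure hb))
  -- notation
  set G : ℕ → V n → V n := fun j u => t (ψ j) • act (γ (ψ j)) u with hG
  set κ : ℕ → ℝ := fun j => (φ (ψ j) : ℝ) + 1 with hκ
  have hκpos : ∀ j, 0 < κ j := fun j => by
    rw [hκ]
    positivity
  have hκinf : Tendsto κ atTop atTop := by
    rw [hκ]
    exact tendsto_atTop_add_const_right _ _
      (tendsto_natCast_atTop_atTop.comp (hφ.tendsto_atTop.comp hψ.tendsto_atTop))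
  have hT' : ∀ u, Tendsto (fun j => G j u) atTop (𝓝 (T u)) := fun u => hT u Submodule.mem_top
  have hGx : Tendsto (fun j => G j (x (φ (ψ j)))) atTop (𝓝 xi) := hlim.comp hψ.tendsto_atTop
  have hGadd : ∀ j u v, G j (u + v) = G j u + G j v := fun j u v => by
    rw [hG]
    dsimp only
    rw [CC.act_add, smul_add]
  have hGsub : ∀ j u v, G j (u - v) = G j u - G j v := fun j u v => by
    rw [hG]
    dsimp only
    rw [CC.act_sub, smul_sub]
  have hGsmul : ∀ j (a : ℝ) u, G j (a • u) = a • G j u := fun j a u => by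
    rw [hG]
    dsimp only
    rw [CC.act_smul, smul_comm]
  have hGC : ∀ j u, G j u ∈ C ↔ u ∈ C := fun j u => h.sact_mem_iff (hγ _) (ht _)
  have hGcl : ∀ j u, G j u ∈ closure C ↔ u ∈ closure C := fun j u =>
    h.sact_cl_iff (hγ _) (ht _)
  have hp' : Tendsto (fun j => κ j • G j p) atTop (𝓝 (xi - T y)) := by
    have e : (fun j => κ j • G j p) = fun j => G j (x (φ (ψ j))) - G j y := by
      funext j
      rw [← hGsub, ← hGsmul]
      congr 1
      rw [hx, hκ]
      dsimp only
      rw [add_sub_cancel_right]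
    rw [e]
    exact hGx.sub (hT' y)
  have hp'C : xi - T y ∉ C := by
    intro hmem
    obtain ⟨j, hj⟩ := (hp'.eventually (h.isOpen.mem_nhds hmem)).exists
    have hj' : κ j • G j p ∈ C := hj
    rw [h.smul_iff (hκpos j), hGC] at hj'
    exact hpC hj'
  have hTy : T y ≠ 0 := by
    intro h0
    rw [h0, sub_zero] at hp'C
    exact hp'C hxi
  have hTcl : ∀ u ∈ closure C, T u ∈ closure C := fun u hu =>
    isClosed_closure.mem_of_tendsto (hT' u) (Eventually.of_forall fun m => (hGcl m u).2 hu)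
  have hTcomm : ∀ u, s • act g (T u) = T (s • act g u) := by
    intro u
    have l1 : Tendsto (fun j => s • act g (G j u)) atTop (𝓝 (s • act g (T u))) :=
      (((CC.act_continuous g).tendsto _).comp (hT' u)).const_smul s
    have l2 := hT' (s • act g u)
    have e : (fun j => s • act g (G j u)) = fun j => G j (s • act g u) := by
      funext j
      rw [hG]
      dsimp only
      rw [CC.act_smul, ← CC.act_mul, ← hγg, CC.act_mul, CC.act_smul, smul_comm]
    rw [e] at l1
    exact tendsto_nhds_unique l1 l2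
  obtain ⟨B, hB, hBn⟩ := h.normal
  -- `T (q i) = 0` for `i ≠ j`
  have hT0 : ∀ i, i ≠ j → T (q i) = 0 := by
    intro i hij
    have hb : ∀ m, ‖G m (q i)‖ ≤ (κ m)⁻¹ * (B * ‖G m (x (φ (ψ m)))‖) := by
      intro m
      have hk := hκpos m
      have h1 : G m (x (φ (ψ m))) - κ m • G m (q i) ∈ closure C := by
        rw [← hGsmul, ← hGsub, hGcl]
        have e : x (φ (ψ m)) - κ m • q i = κ m • (p - q i) + y := by
          rw [hx, hκ]
          dsimp only
          rw [smul_sub]
          abel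
        rw [e]
        refine h.cl_add (h.cl_smul ?_ hk.le) hyc
        have hi : i ∈ S := Finset.mem_erase.2 ⟨hij, Finset.mem_univ _⟩
        rw [hpdef, ← Finset.add_sum_erase S q hi, add_sub_cancel_left]
        exact h.cl_sum fun k _ => hqc k
      have h2 := hBn (κ m • G m (q i)) _ (h.cl_smul ((hGcl m _).2 (hqc i)) hk.le) h1
      rw [norm_smul, Real.norm_of_nonneg hk.le] at h2
      calc ‖G m (q i)‖ = (κ m)⁻¹ * (κ m * ‖G m (q i)‖) := by
            rw [← mul_assoc, inv_mul_cancel₀ hk.ne', one_mul]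
        _ ≤ (κ m)⁻¹ * (B * ‖G m (x (φ (ψ m)))‖) :=
            mul_le_mul_of_nonneg_left h2 (inv_pos.2 hk).le
    have hz : Tendsto (fun m => (κ m)⁻¹ * (B * ‖G m (x (φ (ψ m)))‖)) atTop
        (𝓝 (0 * (B * ‖xi‖))) :=
      (tendsto_inv_atTop_zero.comp hκinf).mul (hGx.norm.const_mul B)
    rw [zero_mul] at hz
    exact tendsto_nhds_unique (hT' (q i)) (squeeze_zero_norm hb hz)
  have hTp : T p = 0 := by
    rw [hpdef, map_sum]
    exact Finset.sum_eq_zero fun i hi => hT0 i (Finset.ne_of_mem_erase hi)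
  have hTyq : T y = T (q j) := by
    rw [hyp, map_add, hTp, zero_add]
  refine ⟨fun m => γ (ψ m), fun m => t (ψ m), T,
    ⟨fun m => hγ _, fun m => hγg _, fun m => ht _, hT'⟩, hTcl, fun u => (hTcomm u).symm, hT0,
    ?_, ?_⟩
  · refine H37.cloF n C Γ h (fun m => G m (q j)) (T (q j))
      (fun m => h.hul.smul _ (h.hul.act _ (h.hul.lamHull _ (hqL j)) _ (hγ _)) _ (ht _))
      (hT' (q j)) ?_ ?_
    · intro hmem
      obtain ⟨m, hm⟩ := ((hT' (q j)).eventually (h.isOpen.mem_nhds hmem)).exists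
      exact h.hul.lamNot _ (hqL j) ((hGC m _).1 hm)
    · rwa [← hTyq]
  · intro u
    obtain ⟨M', hM', ha, hb⟩ := absorb_two h.toPCone hyC u
    refine ⟨M', hM', ?_, ?_⟩
    · have := hTcl _ (subset_closure ha)
      rwa [map_sub, map_smul, hTyq] at this
    · have := hTcl _ (subset_closure hb)
      rwa [map_add, map_smul, hTyq] at this

end Pool.Agent.VMX.H48
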