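import Pool.Agent.Helper48_VMX.AllC
import Pool.Agent.Helper48_VMX.Fin
import Pool.Agent.Helper6_VMX.POF
import Pool.Agent.Helper81_VMX.PFE
import Pool.Agent.Helper25_VMX.PLM
import Pool.Agent.Helper43_VMX.SUA
import Pool.Agent.Helper81_VMX.SUB
import Pool.Agent.Helper75_VMX.NEV
import Pool.Agent.Helper10_VMX.THR
import Pool.Agent.Helper87_VMX.IDX
import Pool.Agent.Helper28_VMX.NEA
import Pool.Agent.Helper17_VMX.UNX
import Pool.Agent.Helper48_VMX.MAP
import Pool.Agent.Helper94_VMX.BND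
import Pool.Agent.Helper53_VMX.RAY
import Pool.Agent.Helper28_VMX.EXT
import Pool.Agent.Helper47_VMX.FGR
import Pool.Agent.Helper38_VMX.COC
import Pool.Agent.Helper8_VMX.FNL

/-!
# VMX squad (MP_e54c4c_gt): THEOREM FULL without hypotheses
-/

set_option autoImplicit false

namespace Pool.Agent.VMX.H48

/-! ## Block F -/

theorem fPof : PofStmt := H6.pof
theorem fPfe : PfeStmt := H81.pfe fPof
theorem fPlm : PlmStmt := H25.plm
theorem fSua : SuaStmt := H43.sua fPfe fPlm cSbg cLop
theorem fSub : SubStmt := H81.sub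
theorem fNev : NevStmt := H75.nev cAtf
theorem fThr : ThrStmt := H10.thr cAtf
theorem fIdx : IdxStmt := H87.idx
theorem fNea : NeaStmt := H28.nea aFmi
theorem fUnx : UnxStmt := H17.unx
theorem fMap : MapStmt := map cSbg cLop
theorem fBnd : BndStmt := H94.bnd
theorem fRay : RayStmt := H53.ray
theorem fExt : ExtStmt := H28.ext
theorem fFgr : FgrStmt := H47.fgr
theorem fCoc : CocStmt := H38.coc cSbg cFix
theorem fFnl : FnlStmt :=
  H8.fnl fSua fSub fNev fThr fIdx fNea fUnx fMap fBnd fRay fExt fFgr fCoc cFge cTpv cBtv cAbn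

end Pool.Agent.VMX.H48
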