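import Pool.Agent.Helper90_KT3.FAY
import Pool.Agent.Helper42_KT3.WIC
import Pool.Agent.Helper80_KT3.WIP
import Pool.Agent.Helper81_KT3.PHE
import Pool.Agent.Helper49_KT3.PHU
import Pool.Agent.Helper24_KT3.PHC
import Pool.Agent.Helper23_KT3.UNI
import Pool.Agent.Helper47_KT3.ATT
import Pool.Agent.Helper92_KT3.RET
import Pool.Agent.Helper86_KT3.XPL
import Pool.Agent.Helper16_KT3.ZLK
import Pool.Agent.Helper21_VMX.ZPX
import Pool.Agent.Helper77_VMX.ZPF
import Pool.Agent.Helper4_VMX.ZPT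
import Pool.Agent.Helper42_VMX.ZFE
import Pool.Agent.Helper23_VMX.ZGE
import Pool.Agent.Helper49_VMX.FMI
import Pool.Agent.Helper5_VMX.FMC
import Pool.Agent.Helper67_VMX.SLA
import Pool.Agent.Helper19_VMX.SLB
import Pool.Agent.Helper98_VMX.SLC
import Pool.Agent.Helper80_VMX.SLD
import Pool.Agent.Helper90_VMX.CES
import Pool.Agent.Helper39_VMX.TES
import Pool.Agent.Helper44_VMX.TRP
import Pool.Agent.Helper81_VMX.ALN
import Pool.Agent.Helper68_VMX.LFT
import Pool.Agent.Helper45_VMX.MIX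
import Pool.Agent.Helper27_VMX.QMF
import Pool.Agent.Helper21_VMX.SLN
import Pool.Agent.Helper77_VMX.SQR
import Pool.Agent.Helper67_VMX.SQC
import Pool.Agent.Helper44_VMX.SQN
import Pool.Agent.Helper24_VMX.RCC
import Pool.Agent.Helper42_VMX.OSO
import Pool.Agent.Helper45_VMX.ZSC
import Pool.Agent.Helper45_VMX.BRE
import Pool.Agent.Helper92_VMX.ZAP
import Pool.Agent.Helper17_VMX.ZBX
import Pool.Agent.Helper49_VMX.FLT
import Pool.Agent.Helper39_VMX.FLB
import Pool.Agent.Helper25_VMX.FLM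
import Pool.Agent.Helper31_VMX.FLS
import Pool.Agent.Helper71_VMX.THA
import Pool.Agent.Helper27_VMX.MCV
import Pool.Agent.Helper25_VMX.LGF
import Pool.Agent.Helper42_VMX.FGE
import Pool.Agent.Helper77_VMX.ATD
import Pool.Agent.Helper91_VMX.ATF
import Pool.Agent.Helper75_VMX.TPV
import Pool.Agent.Helper64_VMX.BTV
import Pool.Agent.Helper37_VMX.ABN
import Pool.Agent.Helper52_VMX.SBG
import Pool.Agent.Helper81_VMX.LOP
import Pool.Agent.Helper97_VMX.FIX

/-!
# VMX squad (MP_e54c4c_gt): the rows of the blocks A, B, C without hypotheses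
-/

set_option autoImplicit false

namespace Pool.Agent.VMX.H48

/-! ## KT3 -/

theorem kFay : KT3.FayStmt := KT3.H90.fay
theorem kWic : KT3.WicStmt := KT3.H42.wic kFay
theorem kWip : KT3.WipStmt := KT3.H80.wip kFay kWic
theorem kPhe : KT3.PheStmt := KT3.H81.phe kFay kWip
theorem kPhu : KT3.PhuStmt := KT3.H49.phu kFay kWip kPhe
theorem kPhc : KT3.PhcStmt := KT3.H24.phc kPhu
theorem kUni : KT3.UniStmt := KT3.H23.uni kFay kPhe kPhu kPhc
theorem kAtt : KT3.AttStmt := KT3.H47.att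
theorem kRet : KT3.RetStmt := KT3.H92.ret
theorem kXpl : KT3.XplStmt := KT3.H86.xpl kPhe kUni kAtt kRet
theorem kZlk : KT3.ZlkStmt := KT3.H16.zlk

/-! ## Block A -/

theorem aZpx : ZpxStmt := H21.zpx
theorem aZpf : ZpfStmt := H77.zpf
theorem aZpt : ZptStmt := H4.zpt aZpf
theorem aZfe : ZfeStmt := H42.zfe aZpx aZpt
theorem aZge : ZgeStmt := H23.zge
theorem aFmi : FmiStmt := H49.fmi aZpx aZpf
theorem aFmc : FmcStmt := H5.fmc aFmi
theorem aSla : SlaStmt := H67.sla
theorem aSlb : SlbStmt := H19.slb aFmc aSla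
theorem aSlc : SlcStmt := H98.slc aSlb
theorem aSld : SldStmt := H80.sld aSlb
theorem aCes : CesStmt := H90.ces aSlb aSlc aSld
theorem aTes : TesStmt := H39.tes aZpf aZpt aCes
theorem aTrp : TrpStmt := H44.trp aZpf aZpt aFmi aFmc aSlb aCes aTes
theorem aAln : AlnStmt := H81.aln aZpf aZpt aZfe aFmc aCes aTes
theorem aLft : LftStmt := H68.lft aCes aAln
theorem aMix : MixStmt := H45.mix aZge aAln aLft

/-! ## Block B -/

theorem bQmf : QmfStmt := H27.qmf aSlb aSlc
theorem bSln : SlnStmt := H21.sln aSlb aSld bQmf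
theorem bSqr : SqrStmt := H77.sqr aZfe aFmc aTrp aAln
theorem bSqc : SqcStmt := H67.sqc aFmc aAln
theorem bSqn : SqnStmt := H44.sqn bSqr bSqc
theorem bRcc : RccStmt := H24.rcc aAln
theorem bOso : OsoStmt := H42.oso aAln bSqr bSqn
theorem bZsc : ZscStmt := H45.zsc aAln bSqr bSqn bOso
theorem bBre : BreStmt := H45.bre aFmc aAln bSqr bSqn bRcc bOso bZsc
theorem bZap : ZapStmt := H92.zap aZpt aFmc aAln aLft
theorem bZbx : ZbxStmt := H17.zbx aZpf aZpt aZfe aFmc aCes aAln bZap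
theorem bFlt : FltStmt := H49.flt aZpf aZpt aFmc aCes aTrp
theorem bFlb : FlbStmt := H39.flb aZpf bFlt
theorem bFlm : FlmStmt := H25.flm aZpf aZpt aZfe aSla aSld aCes aTes bFlb
theorem bFls : FlsStmt := H31.fls aSlb aAln bFlm
theorem bTha : ThaStmt := H71.tha bQmf bSln bBre bZbx bFls

/-! ## Block C -/

theorem cMcv : McvStmt := H27.mcv aMix
theorem cLgf : LgfStmt := H25.lgf
theorem cFge : FgeStmt := H42.fge bTha cMcv cLgf kXpl kZlk
theorem cAtd : AtdStmt := H77.atd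
theorem cAtf : AtfStmt := H91.atf
theorem cTpv : TpvStmt := H75.tpv cAtd cAtf kPhe kUni
theorem cBtv : BtvStmt := H64.btv cAtd cAtf kPhe kUni
theorem cAbn : AbnStmt := H37.abn
theorem cSbg : SbgStmt := H52.sbg
theorem cLop : LopStmt := H81.lop
theorem cFix : FixStmt := H97.fix

end Pool.Agent.VMX.H48
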